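import Pool.Agent.helper21.OD.SpecA

set_option autoImplicit false

/-! # Row REP of project OD: representatives and inverses modulo an integer -/

namespace Pool.Agent.OD

lemma REP_dvd (t : ℤ) (ℓ : ℕ) (z : Oz t) :
    ((ℓ : ℕ) : Oz t) ∣ z ↔ (ℓ : ℤ) ∣ z.re ∧ (ℓ : ℤ) ∣ z.im := by
  have h : ((ℓ : ℕ) : Oz t) = algebraMap ℤ (Oz t) (ℓ : ℤ) := by
    simp
  rw [h, QuadraticAlgebra.algebraMap_dvd_iff]

lemma REP_ex (ℓ : ℕ) (hℓ : 0 < ℓ) (a : ℤ) : ∃ x : Fin ℓ, (ℓ : ℤ) ∣ a - ((x : ℕ) : ℤ) := by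
  have hl : (0 : ℤ) < ℓ := by exact_mod_cast hℓ
  have h0 := Int.emod_nonneg a hl.ne'
  have h1 := Int.emod_lt_of_pos a hl
  refine ⟨⟨(a % ℓ).toNat, ?_⟩, ?_⟩
  · omega
  · simp only
    rw [Int.toNat_of_nonneg h0]
    exact Int.dvd_self_sub_emod

lemma REP_un (ℓ : ℕ) (x y : Fin ℓ) (h : (ℓ : ℤ) ∣ ((x : ℕ) : ℤ) - ((y : ℕ) : ℤ)) : x = y := by
  have hx := x.2
  have hy := y.2
  have h0 : ((x : ℕ) : ℤ) - ((y : ℕ) : ℤ) = 0 := by
    apply Int.eq_zero_of_abs_lt_dvd h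
    rw [abs_lt]
    constructor <;> omega
  apply Fin.ext
  omega

theorem REP : REP_stmt := by
  intro t ℓ hℓ
  refine ⟨?_, ?_, ?_⟩
  · intro z
    obtain ⟨x, hx⟩ := REP_ex ℓ hℓ.pos z.re
    obtain ⟨y, hy⟩ := REP_ex ℓ hℓ.pos z.im
    refine ⟨(x, y), ?_⟩
    rw [REP_dvd]
    exact ⟨hx, hy⟩
  · intro x y h
    rw [REP_dvd] at h
    exact Prod.ext (REP_un ℓ _ _ h.1) (REP_un ℓ _ _ h.2)
  · intro hp p hnp
    -- the norm is prime to ℓ
    have hstar : ((ℓ : ℕ) : Oz t) = star ((ℓ : ℕ) : Oz t) := by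
      rw [star_natCast]
    have hns : ¬ ((ℓ : ℕ) : Oz t) ∣ star p := by
      rintro ⟨c, hc⟩
      apply hnp
      refine ⟨star c, ?_⟩
      have := congrArg star hc
      rw [star_star, star_mul, ← hstar] at this
      rw [this, mul_comm]
    have hN : ¬ (ℓ : ℤ) ∣ p.norm := by
      intro h
      have h1 : ((ℓ : ℕ) : Oz t) ∣ p * star p := by
        rw [← QuadraticAlgebra.algebraMap_norm_eq_mul_star]
        obtain ⟨c, hc⟩ := h
        rw [hc, map_mul]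
        exact ⟨algebraMap ℤ (Oz t) c, by simp⟩
      rcases hp.dvd_or_dvd h1 with h2 | h2
      · exact hnp h2
      · exact hns h2
    have hcop : IsCoprime (ℓ : ℤ) p.norm := by
      rw [Prime.coprime_iff_not_dvd (Nat.prime_iff_prime_int.mp hℓ)]
      exact hN
    obtain ⟨u, v, huv⟩ := hcop
    refine ⟨algebraMap ℤ (Oz t) v * star p, ?_⟩
    refine ⟨- algebraMap ℤ (Oz t) u, ?_⟩
    have h1 : p * (algebraMap ℤ (Oz t) v * star p) = algebraMap ℤ (Oz t) (v * p.norm) := by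
      rw [map_mul, QuadraticAlgebra.algebraMap_norm_eq_mul_star]
      ring
    have h2 : v * p.norm = 1 - u * ℓ := by linarith
    rw [h1, h2, map_sub, map_mul, map_one]
    have h3 : algebraMap ℤ (Oz t) (ℓ : ℤ) = ((ℓ : ℕ) : Oz t) := by simp
    rw [h3]
    ring

end Pool.Agent.OD
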